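import Mathlib

namespace Pool.Agent.Results.MP_0d7d47_co.Yes

open Set

abbrev E := EuclideanSpace ℝ (Fin 2)

noncomputable def V (k l : Fin 2) (s t a b c : ℝ) : Fin 3 → E :=
  ![EuclideanSpace.single k (s * a), EuclideanSpace.single k (s * c), EuclideanSpace.single l (t * b)]

theorem half (f : E →L[ℝ] ℝ) (h : f ≠ 0) (c : ℝ) (W : Fin 3 → E) (hW : ∀ i, c ≤ f (W i)) (p : E)
    (hp : p ∈ interior (convexHull ℝ (range W))) : c < f p := by
  have := (f.isOpenMap_of_ne_zero h).preimage_interior_eq_interior_preimage f.continuous (Ici c)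
  rw [interior_Ici] at this
  exact this.superset (interior_mono (t := f ⁻¹' Ici c) (convexHull_min (range_subset_iff.mpr hW)
    ((convex_Ici c).linear_preimage f.toLinearMap)) hp)

section
variable {k l : Fin 2} (kl : k ≠ l) {s t a b c : ℝ} (hs : s * s = 1) (ht : t * t = 1)
  (hb : 0 < b) (hc : a < c)
include kl hs ht hb hc

theorem V_ind : AffineIndependent ℝ (V k l s t a b c) := by
  refine (affineIndependent_iff_of_fintype _ _).mpr fun w h0 h1 => ?_
  rw [Finset.weightedVSub_eq_linear_combination _ h0] at h1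
  have e1 := congrArg (· k) h1
  have e2 := congrArg (· l) h1
  simp [V, Fin.sum_univ_three, kl, kl.symm] at e1 e2 h0
  have t0 : t ≠ 0 := by rintro rfl; simp at ht
  have w2 : w 2 = 0 := by simpa [t0, hb.ne'] using e2
  have w1 : w 1 * (c - a) = 0 := by
    linear_combination s * e1 - a * h0 + a * w2 - (w 0 * a + w 1 * c) * hs
  have w1 : w 1 = 0 := by simpa [(sub_pos.mpr hc).ne'] using w1
  intro i
  fin_cases i <;> simp <;> linarith

theorem V_mem (p : E) (h1 : 0 ≤ t * p l) (h2 : a * b ≤ s * p k * b + t * p l * a)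
    (h3 : t * p l * c + s * p k * b ≤ b * c) : p ∈ convexHull ℝ (range (V k l s t a b c)) := by
  have d : 0 < b * (c - a) := mul_pos hb (sub_pos.mpr hc)
  refine mem_convexHull_of_exists_fintype
    ![(b * c - t * p l * c - s * p k * b) / (b * (c - a)),
      (s * p k * b + t * p l * a - a * b) / (b * (c - a)), t * p l / b] (V k l s t a b c)
    (fun i => ?_) ?_ mem_range_self ?_
  · fin_cases i
    exacts [div_nonneg (by linarith) d.le, div_nonneg (by linarith) d.le, div_nonneg h1 hb.le]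
  · have := (sub_pos.mpr hc).ne'
    simp only [Fin.sum_univ_three, Matrix.cons_val]
    field_simp
    ring
  · have := (sub_pos.mpr hc).ne'
    ext m
    obtain rfl | rfl : m = k ∨ m = l := by omega
    · simp [V, Fin.sum_univ_three, kl]
      field_simp
      linear_combination p m * b * (c - a) * hs
    · simp [V, Fin.sum_univ_three, kl.symm]
      field_simp
      linear_combination p m * ht

theorem V_int (p : E) (hp : p ∈ interior (convexHull ℝ (range (V k l s t a b c)))) :
    0 < t * p l ∧ a * b < s * p k * b + t * p l * a ∧ t * p l * c + s * p k * b < b * c := by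
  have s0 : s ≠ 0 := by rintro rfl; simp at hs
  have t0 : t ≠ 0 := by rintro rfl; simp at ht
  have es (x y : ℝ) : s * x * (s * y) = x * y := by linear_combination x * y * hs
  have et (x y : ℝ) : t * x * (t * y) = x * y := by linear_combination x * y * ht
  refine ⟨half (t • EuclideanSpace.proj l) (fun h => ?_) _ _ (fun i => ?_) p hp, ?_, ?_⟩
  · simpa [t0] using congrArg (· (EuclideanSpace.single l 1)) h
  · fin_cases i <;> simp [V, kl.symm, ← mul_assoc, ht, hb.le]
  · have := half ((s * b) • EuclideanSpace.proj k + (t * a) • EuclideanSpace.proj l)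
      (fun h => ?_) (a * b) _ (fun i => ?_) p hp
    · simp at this
      linarith
    · simpa [s0, hb.ne', kl.symm] using congrArg (· (EuclideanSpace.single k 1)) h
    · fin_cases i <;> simp [V, kl, kl.symm, es, et] <;> nlinarith [mul_pos hb (sub_pos.mpr hc)]
  · have := half ((-s * b) • EuclideanSpace.proj k + (-t * c) • EuclideanSpace.proj l)
      (fun h => ?_) (-(b * c)) _ (fun i => ?_) p hp
    · simp at this
      linarith
    · simpa [s0, hb.ne', kl.symm] using congrArg (· (EuclideanSpace.single k 1)) h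
    · fin_cases i <;> simp [V, kl, kl.symm, es, et] <;> nlinarith [mul_pos hb (sub_pos.mpr hc)]

omit hb in
theorem V_dist {x y : ℝ} (x0 : 0 ≤ x) (y0 : 0 ≤ y) (hx : a ^ 2 + b ^ 2 = x ^ 2)
    (hy : b ^ 2 + c ^ 2 = y ^ 2) (i j : Fin 3) :
    dist (V k l s t a b c i) (V k l s t a b c j) = !![0, c - a, x; c - a, 0, y; x, y, 0] i j := by
  have e (p q : E) (r : ℝ) (r0 : 0 ≤ r) (h : (p k - q k) ^ 2 + (p l - q l) ^ 2 = r ^ 2) :
      dist p q = r := by
    rw [EuclideanSpace.dist_eq, Real.sqrt_eq_iff_mul_self_eq (by positivity) r0, Fin.sum_univ_two]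
    simp only [Real.dist_eq, sq_abs]
    obtain ⟨rfl, rfl⟩ | ⟨rfl, rfl⟩ : k = 0 ∧ l = 1 ∨ k = 1 ∧ l = 0 := by omega
    all_goals linarith
  have := (sub_pos.mpr hc).le
  fin_cases i <;> fin_cases j <;> refine e _ _ _ (by simp [*]) ?_ <;>
    simp [V, kl, kl.symm] <;> nlinarith

end

def w (q : ℕ) : ℕ → ℕ
  | 0 => q
  | n + 1 => if n % 2 = 0 then 10 * w q n ^ 2 + 15 * w q n + 5 else 5 * w q n ^ 2 + 6 * w q n + 1

def z (q : ℕ) : ℕ → ℕ
  | 0 => 0
  | n + 1 => 20 * w q n + if n % 2 = 0 then 15 else 12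

def hyp (q : ℕ) : ℕ → ℕ
  | 0 => z q 1
  | n + 1 => z q (n + 2) + if n % 2 = 0 then 1 else 2

theorem w_lt (q n : ℕ) : w q n < w q (n + 1) := by
  rw [w]
  split_ifs <;> omega

theorem w_ge (q n : ℕ) : 5 ≤ w q (n + 1) := by
  induction n with
  | zero => simp [w]
  | succ n h => exact h.trans (w_lt q _).le

theorem w_inj {q q' : ℕ} (hq : q < 5) (hq' : q' < 5) (n n' : ℕ) (h : n % 2 = n' % 2)
    (e : w q n = w q' n') : q = q' ∧ n = n' := by
  induction n generalizing n' with
  | zero =>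
    cases n' with
    | zero => exact ⟨e, rfl⟩
    | succ m => have := w_ge q' m; simp only [w] at e this; omega
  | succ n ih =>
    cases n' with
    | zero => have := w_ge q n; simp only [w] at e this; omega
    | succ m =>
      have := ih m (by omega) (by
        simp only [w, show n % 2 = m % 2 by omega] at e
        split_ifs at e <;> nlinarith)
      omega

theorem z_mono (q : ℕ) : StrictMono (z q) := strictMono_nat_of_lt_succ fun n => by
  cases n with
  | zero => simp [z]
  | succ n =>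
    have := w_lt q n
    simp only [z]
    split_ifs <;> omega

theorem pyth (q n : ℕ) : z q n ^ 2 + z q (n + 1) ^ 2 = hyp q n ^ 2 := by
  cases n with
  | zero => simp [z, hyp]
  | succ n =>
    simp only [z, hyp, w]
    split_ifs <;> first | omega | ring

theorem bez (q n : ℕ) : ∃ u v : ℤ,
    (u : ℝ) * (hyp q (n + 1) - (z q (n + 2) - z q n)) + v * hyp q n = 1 := by
  cases n with
  | zero => exact ⟨1, 0, by simp [z, hyp]⟩
  | succ n =>
    simp only [z, hyp, w]
    generalize w q n = x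
    by_cases h : n % 2 = 0
    · refine ⟨-(20 * x + 13) * (8 * x + 7) - 2, 2 * (8 * x + 7), ?_⟩
      simp only [h, show (n + 1) % 2 ≠ 0 by omega, show (n + 1 + 1) % 2 = 0 by omega]
      push_cast
      ring
    · refine ⟨(20 * x + 11) * (8 * x + 5) + 2, -4 * (8 * x + 5), ?_⟩
      simp only [h, show (n + 1) % 2 = 0 by omega, show (n + 1 + 1) % 2 ≠ 0 by omega]
      push_cast
      ring

def ax (n : ℕ) : Fin 2 := if n % 2 = 0 then 0 else 1

def sd (q : Fin 2 → Bool) : ℕ := (q 0).toNat + 2 * (q 1).toNat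

def sg (q : Fin 2 → Bool) (n : ℕ) : ℝ := if q (ax n) then 1 else -1

noncomputable def T (i : (Fin 2 → Bool) × ℕ) : Fin 3 → E :=
  V (ax i.2) (ax (i.2 + 1)) (sg i.1 i.2) (sg i.1 (i.2 + 1))
    (z (sd i.1) i.2) (z (sd i.1) (i.2 + 1)) (z (sd i.1) (i.2 + 2))

theorem ax_ne (n : ℕ) : ax n ≠ ax (n + 1) := by
  unfold ax
  split_ifs <;> omega

theorem ax2 (n : ℕ) : ax (n + 2) = ax n := by simp [ax]

theorem sg2 (q : Fin 2 → Bool) (n : ℕ) : sg q n * sg q n = 1 := by
  unfold sg
  split_ifs <;> norm_num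

theorem zb (q n : ℕ) : (0 : ℝ) < z q (n + 1) := by
  exact_mod_cast (Nat.zero_le _).trans_lt (z_mono q n.lt_succ_self)

theorem zc (q n : ℕ) : (z q n : ℝ) < z q (n + 2) := by exact_mod_cast z_mono q (by omega)

theorem T_dist (q : Fin 2 → Bool) (n : ℕ) (i j : Fin 3) : dist (T (q, n) i) (T (q, n) j) =
    !![0, (z (sd q) (n + 2) - z (sd q) n : ℝ), hyp (sd q) n;
      z (sd q) (n + 2) - z (sd q) n, 0, hyp (sd q) (n + 1);
      hyp (sd q) n, hyp (sd q) (n + 1), 0] i j :=
  V_dist (ax_ne n) (sg2 _ _) (sg2 _ _) (zc _ _) (by positivity)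
    (by positivity) (mod_cast pyth _ _) (mod_cast pyth _ (n + 1)) i j

theorem T_nat (i : (Fin 2 → Bool) × ℕ) (j k : Fin 3) : ∃ m : ℕ, dist (T i j) (T i k) = m := by
  rw [T_dist, ← Nat.cast_sub (z_mono _ (by omega)).le]
  fin_cases j <;> fin_cases k <;> first | exact ⟨0, Nat.cast_zero.symm⟩ | exact ⟨_, rfl⟩

theorem T_le (q : Fin 2 → Bool) (n : ℕ) (j k : Fin 3) :
    dist (T (q, n) j) (T (q, n) k) ≤ hyp (sd q) (n + 1) := by
  have a : (z (sd q) (n + 2) : ℝ) ≤ hyp (sd q) (n + 1) := by simp [hyp]; positivity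
  have b : (hyp (sd q) n : ℝ) ≤ hyp (sd q) (n + 1) := by
    have := pyth (sd q) n
    have := pyth (sd q) (n + 1)
    have := Nat.pow_le_pow_left (z_mono (sd q) (show n < n + 1 + 1 by omega)).le 2
    exact_mod_cast (Nat.pow_le_pow_iff_left two_ne_zero).mp (by omega)
  have : (0 : ℝ) ≤ z (sd q) n := by positivity
  rw [T_dist]
  fin_cases j <;> fin_cases k <;> simp [b] <;> linarith

theorem T_prim (i : (Fin 2 → Bool) × ℕ) (r : ℝ)
    (h : ∀ j k, ∃ m : ℕ, r * dist (T i j) (T i k) = m) : ∃ m : ℤ, r = m := by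
  obtain ⟨q, n⟩ := i
  obtain ⟨u, v, e⟩ := bez (sd q) n
  obtain ⟨a, ha⟩ := h 0 1
  obtain ⟨b, hb⟩ := h 0 2
  obtain ⟨c, hc⟩ := h 1 2
  simp only [T_dist, Matrix.of_apply, Matrix.cons_val] at ha hb hc
  exact ⟨u * (c - a) + v * b, by push_cast; linear_combination u * (hc - ha) + v * hb - r * e⟩

theorem T_sim (i i' : (Fin 2 → Bool) × ℕ) (σ : Equiv.Perm (Fin 3)) (h : Similar (T i) (T i' ∘ σ)) :
    i = i' := by
  obtain ⟨r, r0, h⟩ := similar_iff_exists_pos_dist_eq.mp h
  have h' j k : dist (T i' j) (T i' k) = r⁻¹ * dist (T i (σ.symm j)) (T i (σ.symm k)) := by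
    simp [h, r0.ne']
  obtain ⟨a, ha⟩ := T_prim i' r fun j k => by
    simpa [h] using T_nat i (σ.symm j) (σ.symm k)
  obtain ⟨b, hb⟩ := T_prim i r⁻¹ fun j k => by
    simpa [h, r0.ne'] using T_nat i' (σ j) (σ k)
  obtain rfl : r = 1 := by
    have : a * b = 1 := by exact_mod_cast (by rw [← ha, ← hb]; field_simp : (a : ℝ) * b = 1)
    rw [ha, Int.eq_one_of_mul_eq_one_right (by exact_mod_cast ha ▸ r0.le) this, Int.cast_one]
  obtain ⟨q, n⟩ := i
  obtain ⟨q', n'⟩ := i'
  have e1 := T_le q' n' (σ 1) (σ 2)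
  have e2 := T_le q n (σ.symm 1) (σ.symm 2)
  have e3 := h 1 2
  have e4 := h' 1 2
  rw [T_dist] at e3 e4
  simp only [Matrix.of_apply, Matrix.cons_val, Function.comp, one_mul, inv_one] at e3 e4
  have e : hyp (sd q) (n + 1) = hyp (sd q') (n' + 1) := by
    exact_mod_cast (by linarith : (hyp (sd q) (n + 1) : ℝ) = hyp (sd q') (n' + 1))
  have s5 (q : Fin 2 → Bool) : sd q < 5 := by
    unfold sd
    cases q 0 <;> cases q 1 <;> simp
  simp only [hyp, z] at e
  obtain ⟨x, y⟩ := w_inj (s5 q) (s5 q') (n + 1) (n' + 1) (by split_ifs at e <;> omega)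
    (by split_ifs at e <;> omega)
  refine Prod.ext (funext (Fin.forall_fin_two.mpr ?_)) (by simpa using y)
  revert x
  simp only [sd]
  cases q 0 <;> cases q 1 <;> cases q' 0 <;> cases q' 1 <;> simp

noncomputable def ph (q : Fin 2 → Bool) (p : E) (n : ℕ) : ℝ :=
  sg q n * p (ax n) * z (sd q) (n + 1) + sg q (n + 1) * p (ax (n + 1)) * z (sd q) n -
    z (sd q) n * z (sd q) (n + 1)

theorem T_int (q : Fin 2 → Bool) (n : ℕ) (p : E)
    (h : p ∈ interior (convexHull ℝ (range (T (q, n))))) :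
    (∀ m, 0 < sg q m * p (ax m)) ∧ 0 < ph q p n ∧ ph q p (n + 1) < 0 := by
  obtain ⟨a, b, c⟩ := V_int (ax_ne n) (sg2 _ _) (sg2 _ _) (zb _ _) (zc _ _) p h
  have z0 : (0 : ℝ) ≤ z (sd q) n := by positivity
  have d : 0 < sg q n * p (ax n) := by
    have := zb (sd q) n
    have := zc (sd q) n
    have : sg q (n + 1) * p (ax (n + 1)) < z (sd q) (n + 1) := by nlinarith
    nlinarith
  refine ⟨fun m => ?_, by unfold ph; linarith, by simp only [ph, sg, ax2] at *; linarith⟩
  have := ax_ne n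
  obtain e | e : ax m = ax n ∨ ax m = ax (n + 1) := by omega
  all_goals simpa only [sg, e]

theorem ph_neg (q : Fin 2 → Bool) (p : E) (h : ∀ m, 0 < sg q m * p (ax m)) (n : ℕ)
    (hn : ph q p n < 0) (m : ℕ) (hm : n ≤ m) : ph q p m < 0 := by
  induction m, hm using Nat.le_induction with
  | base => exact hn
  | succ m _ ih =>
    have := h m
    have := h (m + 1)
    have := zb (sd q) m
    have := zc (sd q) m
    have z0 : (0 : ℝ) ≤ z (sd q) m := by positivity
    simp only [ph, sg, ax2] at *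
    set x := (if q (ax m) then (1 : ℝ) else -1) * p (ax m)
    set y := (if q (ax (m + 1)) then (1 : ℝ) else -1) * p (ax (m + 1))
    have : y < z (sd q) (m + 1) := by
      by_contra! c
      nlinarith
    nlinarith

theorem cover (p : E) : ∃ i, p ∈ convexHull ℝ (range (T i)) := by
  let q : Fin 2 → Bool := fun k => decide (0 ≤ p k)
  have a m : sg q m * p (ax m) = |p (ax m)| := by
    simp only [sg, q, decide_eq_true_eq]
    split_ifs with h
    exacts [by rw [abs_of_nonneg h, one_mul], by rw [abs_of_neg (not_le.mp h), neg_one_mul]]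
  have ex : ∃ n, ph q p (n + 1) ≤ 0 := by
    obtain ⟨n, hn⟩ := exists_nat_ge (2 * ‖p‖)
    have b m : |p m| ≤ ‖p‖ := PiLp.norm_apply_le p m
    have c (m : ℕ) : (m : ℝ) ≤ z (sd q) m := mod_cast (z_mono _).le_apply
    have := c (n + 1)
    have := c (n + 1 + 1)
    refine ⟨n, ?_⟩
    simp only [ph, a]
    push_cast at *
    have x := mul_le_mul_of_nonneg_right (show 2 * |p (ax (n + 1))| ≤ z (sd q) (n + 1) by
      linarith [b (ax (n + 1))]) (zb (sd q) (n + 1)).le
    have y := mul_le_mul_of_nonneg_right (show 2 * |p (ax (n + 1 + 1))| ≤ z (sd q) (n + 1 + 1) by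
      linarith [b (ax (n + 1 + 1))]) (zb (sd q) n).le
    linarith
  classical
  refine ⟨(q, Nat.find ex), V_mem (ax_ne _) (sg2 _ _) (sg2 _ _) (zb _ _) (zc _ _) p
    (by rw [a]; positivity) ?_ ?_⟩
  · suffices 0 ≤ ph q p (Nat.find ex) by simp only [ph] at *; linarith
    cases e : Nat.find ex with
    | zero => simp only [ph, a, z]; simp; positivity
    | succ m => exact (not_le.mp (Nat.find_min ex (by omega : m < Nat.find ex))).le
  · have := Nat.find_spec ex
    simp only [ph, sg, ax2] at *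
    linarith

theorem result : ∃ (ι : Type) (T : ι → Affine.Triangle ℝ (EuclideanSpace ℝ (Fin 2))),
    ⋃ i, convexHull ℝ (range (T i).points) = univ ∧
    (∀ i j, i ≠ j → Disjoint (interior (convexHull ℝ (range (T i).points)))
      (interior (convexHull ℝ (range (T j).points)))) ∧
    (∀ i a b, a ≠ b → ∃ m : ℕ, 0 < m ∧ dist ((T i).points a) ((T i).points b) = m) ∧
    ∀ i j, i ≠ j → ∀ σ : Equiv.Perm (Fin 3), ¬Similar (T i).points ((T j).points ∘ σ) := by
  have ind i : AffineIndependent ℝ (T i) :=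
    V_ind (ax_ne _) (sg2 _ _) (sg2 _ _) (zb _ _) (zc _ _)
  refine ⟨_, fun i => ⟨T i, ind i⟩, eq_univ_of_forall fun p => mem_iUnion.mpr (cover p),
    fun ⟨q, n⟩ ⟨q', n'⟩ ne => disjoint_left.mpr fun p h h' => ne ?_,
    fun i a b ab => (T_nat i a b).imp fun m e => ⟨?_, e⟩, fun i j ne σ h => ne (T_sim i j σ h)⟩
  · obtain ⟨a, b, c⟩ := T_int q n p h
    obtain ⟨a', b', c'⟩ := T_int q' n' p h'
    obtain rfl : q = q' := by
      have (m : ℕ) : q (ax m) = q' (ax m) := by
        have x := a m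
        have y := a' m
        simp only [sg] at x y
        split_ifs at x y <;> simp_all <;> linarith
      exact funext (Fin.forall_fin_two.mpr ⟨this 0, this 1⟩)
    rcases lt_trichotomy n n' with l | rfl | l
    exacts [absurd (ph_neg q p a _ c _ l) b'.not_gt, rfl, absurd (ph_neg q p a _ c' _ l) b.not_gt]
  · exact_mod_cast e ▸ dist_pos.mpr ((ind i).injective.ne ab)

end Pool.Agent.Results.MP_0d7d47_co.Yes
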